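import Pool.Agent.E8helper17.CND.S

set_option autoImplicit false

/-!
# Piece SPATH of project CND
-/

namespace Pool.Agent.E8helper91.CND

open H17CND

theorem SPATH (hA : S_APP) (hR : S_REV) (h1 : S_ONE) (hB : S_BLP) : S_SPATH := by
  intro g B i j k hj hk hjk
  obtain ⟨l, hli, hlj, hlk, hall⟩ : ∃ l : Fin 4, i ≠ l ∧ l ≠ j ∧ l ≠ k ∧
      ∀ m : Fin 4, i ≠ m → m = j ∨ m = l ∨ m = k := by
    clear hA hR h1 hB
    revert i j k
    decide
  have e1 := h1 _ (comp B.H B.τ) (CV.x i j hj)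
  have e2 := hB g B i l false (B.τ j) (fun h => hlj (B.inj h).symm)
  have e3 := h1 _ (comp B.H B.τ) (CV.x i l hli)
  have e4 := hB g B i k true (B.τ l) (fun h => hlk (B.inj h))
  have e5 := h1 _ (comp B.H B.τ) (CV.x i k hk)
  have a1 := hA _ _ _ _ _ _ _ _ e1 e2 (by exact ⟨rfl, rfl⟩) (by
    rw [Set.disjoint_left]
    rintro v hv ⟨h, hv'⟩
    rw [Set.mem_singleton_iff] at hv
    rw [hv] at hv'
    cases hv')
  have a2 := hA _ _ _ _ _ _ _ _ a1 e3 (by exact ⟨rfl, rfl⟩) (by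
    rw [Set.disjoint_left]
    rintro v hv hv'
    rw [Set.mem_singleton_iff] at hv'
    subst hv'
    rcases hv with hv | ⟨h, hv⟩
    · rw [Set.mem_singleton_iff] at hv
      injection hv with _ hv
      exact hlj hv
    · cases hv)
  have a3 := hA _ _ _ _ _ _ _ _ a2 e4 (by exact ⟨rfl, rfl⟩) (by
    rw [Set.disjoint_left]
    rintro v hv ⟨h, hv'⟩
    subst hv'
    rcases hv with (hv | ⟨h', hv⟩) | hv
    · cases hv
    · cases hv
    · cases hv)
  have a4 := hA _ _ _ _ _ _ _ _ a3 e5 (by exact ⟨rfl, rfl⟩) (by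
    rw [Set.disjoint_left]
    rintro v hv hv'
    rw [Set.mem_singleton_iff] at hv'
    subst hv'
    rcases hv with ((hv | ⟨h', hv⟩) | hv) | ⟨h', hv⟩
    · rw [Set.mem_singleton_iff] at hv
      injection hv with _ hv
      exact hjk hv.symm
    · cases hv
    · rw [Set.mem_singleton_iff] at hv
      injection hv with _ hv
      exact hlk hv.symm
    · cases hv)
  convert a4 using 1
  ext v
  constructor
  · rintro (⟨s, h, rfl⟩ | ⟨m, hm, rfl⟩)
    · cases s
      · exact Or.inl (Or.inl (Or.inl (Or.inr ⟨h, rfl⟩)))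
      · exact Or.inl (Or.inr ⟨h, rfl⟩)
    · rcases hall m hm with rfl | rfl | rfl
      · exact Or.inl (Or.inl (Or.inl (Or.inl rfl)))
      · exact Or.inl (Or.inl (Or.inr rfl))
      · exact Or.inr rfl
  · rintro ((((hv | ⟨h, hv⟩) | hv) | ⟨h, hv⟩) | hv)
    · rw [Set.mem_singleton_iff] at hv
      exact Or.inr ⟨j, hj, hv⟩
    · exact Or.inl ⟨false, h, hv⟩
    · rw [Set.mem_singleton_iff] at hv
      exact Or.inr ⟨l, hli, hv⟩
    · exact Or.inl ⟨true, h, hv⟩
    · rw [Set.mem_singleton_iff] at hv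
      exact Or.inr ⟨k, hk, hv⟩

end Pool.Agent.E8helper91.CND
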